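import Pool.Agent.Helper66_ML.Asm2
import Pool.Agent.Helper66_KF.AsmKF
import Pool.Agent.Helper66_DF.DblE
import Pool.Agent.Helper57_K9.Fin2
import Pool.Agent.Helper25_K9.ADA
import Pool.Agent.Helper20_K9.Adp
import Pool.Agent.Helper65_K9.AZR
import Pool.Agent.Helper86_K9.CE0
import Pool.Agent.Helper35_K9.CHQ
import Pool.Agent.Helper35_K9.CHV
import Pool.Agent.Helper90_K9.Cnj
import Pool.Agent.Helper27_K9.CT9
import Pool.Agent.Helper11_K9.DT3
import Pool.Agent.Helper24_K9.Duc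
import Pool.Agent.Helper24_K9.Dun
import Pool.Agent.Helper1_K9.DZO
import Pool.Agent.Helper41_K9.EIS
import Pool.Agent.Helper56_K9.EXP
import Pool.Agent.Helper69_K9.Fmg
import Pool.Agent.Helper77_K9.INT
import Pool.Agent.Helper34_K9.INX
import Pool.Agent.Helper11_K9.K9
import Pool.Agent.Helper69_K9.Kap
import Pool.Agent.Helper3_K9.Lbd
import Pool.Agent.Helper75_K9.LBR
import Pool.Agent.Helper6_K9.NZ
import Pool.Agent.Helper97_K9.NZR
import Pool.Agent.Helper19_K9.OMG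
import Pool.Agent.Helper97_K9.ORB
import Pool.Agent.Helper25_K9.PRG
import Pool.Agent.Helper27_K9.PRT
import Pool.Agent.Helper3_K9.Psi
import Pool.Agent.Helper2_K9.PUG
import Pool.Agent.Helper25_K9.ROT
import Pool.Agent.Helper86_K9.SEC
import Pool.Agent.Helper10_K9.SM2
import Pool.Agent.Helper53_K9.Tra
import Pool.Agent.Helper82_K9.TRB
import Pool.Agent.Helper88_K9.Val
import Pool.Agent.Helper82_K9.WBO

/-!
# Squad K9: assembly
-/

open scoped BigOperators

noncomputable section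

namespace Pool.Agent.PP.K9

open Pool.Agent.Helper51_AWC Pool.Agent.Helper79_WRA Pool.Agent.PP Pool.Agent.PP.KF

theorem trb_ : TrbStmt := H82.trb H53.tra

theorem wbo_ : WboStmt := H82W.wbo trb_

theorem ada_ : AdaStmt := H25.ada H20.adp

theorem int__ : IntStmt := H77.int_ ada_ H27.prt

theorem sm2_ : Sm2Stmt := H10.sm2 trb_

theorem rot_ : RotStmt := H25.rot wbo_

theorem azr_ : AzrStmt := H65.azr rot_ sm2_ H3.psi

theorem ce0_ : Ce0Stmt := H86.ce0 wbo_ ada_ H3.psi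

theorem dun_ : DunStmt := H24.dun H69.fmg

theorem duc_ : DucStmt := H24.duc dun_

theorem chq_ : ChqStmt := H35.chq H56.exp H75.lbr H02.pug duc_

theorem chv_ : ChvStmt := H35.chv H56.exp chq_ H75.lbr H69.fmg

theorem dzo_ : DzoStmt := H1.dzo wbo_

theorem kap_ : KapStmt := H69.kap dzo_ H02.pug

theorem val_ : ValStmt := H88.val H69.fmg sm2_ ce0_ kap_

theorem nzr_ : NzrStmt := H97.nzr H69.fmg H97.orb H34.inx

theorem nz_ : NzStmt := H6.nz H19.omg nzr_

theorem prg_ : PrgStmt := H25.prg wbo_ H3.psi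

theorem dt3_ : Dt3Stmt :=
  H11.dt3 kap_ val_ H41.eis H86.sec H90.cnj int__ azr_ nz_ prg_

theorem k9_ : K9Stmt := H11.k9 dt3_ H02.pug int__ H86.sec azr_ nz_ prg_

theorem ct9_ : Ct9Stmt := H27.ct9 ML.nn3_ k9_ chv_ H3.lbd H69.fmg

theorem gq9_ : Gq9Stmt := H57.gq9 ct9_ H69.fmg CD2.Asm.d2a_ H9.addStmt

end Pool.Agent.PP.K9
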